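import Pool.Agent.R527.FZ.Main

/-!
Random trees built with uniform freezing: exchanging the first `-1` with a following `+1` lowers
the height in the increasing convex order, hence `E[H(T(x))] ≥ E[H(R_n)]` for every admissible `x`
with a single `-1` before its last `+1`.
-/

namespace Pool.Agent.Results.MP_66bb51_pr.FirstSwap

open Pool.Agent.R527.FZ

theorem result :
    (∀ k : ℕ, 1 ≤ k → ∀ v : List Bool,
      Admissible (List.replicate k true ++ [false, true] ++ v) → ∀ c : ℕ,
        expect (List.replicate k true ++ [true, false] ++ v)
            (fun T => ((T.height - c : ℕ) : ℝ)) ≤
          expect (List.replicate k true ++ [false, true] ++ v)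
            (fun T => ((T.height - c : ℕ) : ℝ))) ∧
    (∀ k l j : ℕ,
      Admissible (List.replicate k true ++ [false] ++ List.replicate l true ++
        List.replicate j false) → ∀ c : ℕ,
        expect (List.replicate (k + l) true) (fun T => ((T.height - c : ℕ) : ℝ)) ≤
          expect (List.replicate k true ++ [false] ++ List.replicate l true ++
            List.replicate j false) (fun T => ((T.height - c : ℕ) : ℝ))) := by
  refine ⟨fun k hk v hv c => swap_main k hk v (valid_of_admissible hv) c, ?_⟩
  intro k l j hv c
  have h1 : List.replicate k true ++ [false] ++ List.replicate l true ++
      List.replicate j false = List.replicate k true ++ (false :: (List.replicate l true ++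
        List.replicate j false)) := by
    simp
  rw [h1] at hv ⊢
  have hval := valid_of_admissible hv
  rcases Nat.eq_zero_or_pos k with hk | hk
  · subst hk
    -- the sequence starts with `-1`, so it consists of this single `-1`
    have hl : l = 0 ∧ j = 0 := by
      rw [List.replicate_zero, List.nil_append] at hval
      obtain ⟨_, h3⟩ := hval
      constructor
      · by_contra hl
        obtain ⟨l', rfl⟩ := Nat.exists_eq_succ_of_ne_zero hl
        rw [List.replicate_succ, List.cons_append] at h3
        exact absurd h3.1 (by norm_num)
      · by_contra hj
        obtain ⟨j', rfl⟩ := Nat.exists_eq_succ_of_ne_zero hj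
        rcases Nat.eq_zero_or_pos l with hl | hl
        · subst hl
          rw [List.replicate_zero, List.nil_append, List.replicate_succ] at h3
          exact absurd h3.1 (by norm_num)
        · obtain ⟨l', rfl⟩ := Nat.exists_eq_succ_of_ne_zero hl.ne'
          rw [List.replicate_succ, List.cons_append] at h3
          exact absurd h3.1 (by norm_num)
    obtain ⟨rfl, rfl⟩ := hl
    have h4 := expect_rep_false 0 1 (by norm_num) c
    simp only [List.replicate_zero, List.nil_append, List.replicate_one] at h4
    simp only [List.replicate_zero, List.nil_append, Nat.add_zero]
    exact h4.ge
  · exact one_block k l j hk hval c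

end Pool.Agent.Results.MP_66bb51_pr.FirstSwap
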